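import Pool.Agent.Lib_helper29.G4.PM4
import Pool.Agent.Lib_helper44.G4.Defs
import Pool.Agent.Lib_helper82.G4.PS
import Pool.Agent.Lib_helper93.G4.CNT
import Pool.Agent.Lib_helper93.G4.ORTH

/-!
# PM2: variance of the sum over primes
-/

namespace Pool.Agent.G4

open Complex MeasureTheory Filter Topology

variable {m : ℕ}

theorem pm2_ee (p p' : ℕ) (t : ℝ) : pme p t * pme p' t =
    cexp (t * ((-(Real.log p + Real.log p') : ℝ) : ℂ) * I) := by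
  rw [pme, pme, ← Complex.exp_add]
  congr 1
  push_cast
  ring

theorem pm2_ec (p p' : ℕ) (t : ℝ) : pme p t * starRingEnd ℂ (pme p' t) =
    cexp (t * ((Real.log p' - Real.log p : ℝ) : ℂ) * I) := by
  rw [pme, pme, ← Complex.exp_conj, ← Complex.exp_add]
  congr 1
  simp only [map_mul, Complex.conj_ofReal, Complex.conj_I]
  push_cast
  ring

theorem pm2_A (S : Sys m) {w : ℝ → ℝ} (hw : Continuous w) (hc : HasCompactSupport w) (P : ℕ)
    (η : ℝ) (x : Ix) : ∫ t : ℝ, (w t : ℂ) * pmZ S P η x t ^ 2 =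
    ∑ q ∈ pmT P, ((pmk q : ℂ) * (pmc S η q.1 * pmc S η q.2) *
      hatw w (-(Real.log q.1 + Real.log q.2))) * ev x (q.1 * q.2) := by
  have h1 : ∀ t : ℝ, (w t : ℂ) * pmZ S P η x t ^ 2 = ∑ q ∈ pmT P,
      (((pmk q : ℂ) * (pmc S η q.1 * pmc S η q.2)) * ev x (q.1 * q.2)) *
        ((w t : ℂ) * cexp (t * ((-(Real.log q.1 + Real.log q.2) : ℝ) : ℂ) * I)) := by
    intro t
    rw [pm_Z_sq, Finset.mul_sum]
    apply Finset.sum_congr rfl
    intro q _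
    rw [pm2_ee]
    ring
  simp_rw [h1]
  rw [integral_finsetSum]
  · apply Finset.sum_congr rfl
    intro q _
    rw [integral_const_mul, hatw]
    ring
  · intro q _
    apply Integrable.const_mul
    have h2 : Continuous (fun t : ℝ => (w t : ℂ) *
        cexp (t * ((-(Real.log q.1 + Real.log q.2) : ℝ) : ℂ) * I)) :=
      (Complex.continuous_ofReal.comp hw).mul (by fun_prop)
    exact h2.integrable_of_hasCompactSupport ((hc.comp_left Complex.ofReal_zero).mul_right)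

theorem pm2_B (S : Sys m) {w : ℝ → ℝ} (hw : Continuous w) (hc : HasCompactSupport w) (P : ℕ)
    (η : ℝ) (x : Ix) :
    ∫ t : ℝ, (w t : ℂ) * (pmZ S P η x t * starRingEnd ℂ (pmZ S P η x t)) =
    ∑ q ∈ Nat.primesBelow (P + 1) ×ˢ Nat.primesBelow (P + 1),
      (pmc S η q.1 * starRingEnd ℂ (pmc S η q.2) * hatw w (Real.log q.2 - Real.log q.1)) *
        ev x q.1 * starRingEnd ℂ (ev x q.2) := by
  have h1 : ∀ t : ℝ, (w t : ℂ) * (pmZ S P η x t * starRingEnd ℂ (pmZ S P η x t)) =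
      ∑ q ∈ Nat.primesBelow (P + 1) ×ˢ Nat.primesBelow (P + 1),
      ((pmc S η q.1 * starRingEnd ℂ (pmc S η q.2)) * (ev x q.1 * starRingEnd ℂ (ev x q.2))) *
        ((w t : ℂ) * cexp (t * ((Real.log q.2 - Real.log q.1 : ℝ) : ℂ) * I)) := by
    intro t
    rw [pmZ, map_sum, Finset.sum_mul_sum, ← Finset.sum_product', Finset.mul_sum]
    apply Finset.sum_congr rfl
    intro q _
    rw [← pm2_ec, map_mul, map_mul]
    ring
  simp_rw [h1]
  rw [integral_finsetSum]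
  · apply Finset.sum_congr rfl
    intro q _
    rw [integral_const_mul, hatw]
    ring
  · intro q _
    apply Integrable.const_mul
    have h2 : Continuous (fun t : ℝ => (w t : ℂ) *
        cexp (t * ((Real.log q.2 - Real.log q.1 : ℝ) : ℂ) * I)) :=
      (Complex.continuous_ofReal.comp hw).mul (by fun_prop)
    exact h2.integrable_of_hasCompactSupport ((hc.comp_left Complex.ofReal_zero).mul_right)

theorem pm2_ev (x : Ix) {p : ℕ} (hp : p.Prime) :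
    ‖ev x p‖ ^ 2 = if p ∣ x.q then 0 else 1 := by
  have hq : x.q = x.1 + 2 := rfl
  split_ifs with h
  · have h1 : ¬ IsUnit ((p : ℕ) : ZMod (x.1 + 2)) := by
      rw [ZMod.isUnit_iff_coprime]
      intro h2
      rw [hq] at h
      have h3 := Nat.dvd_gcd (dvd_refl p) h
      rw [Nat.Coprime] at h2
      rw [h2] at h3
      exact hp.one_lt.ne' (Nat.dvd_one.mp h3)
    rw [ev, MulChar.map_nonunit _ h1]
    simp
  · have h1 : IsUnit ((p : ℕ) : ZMod (x.1 + 2)) := by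
      rw [ZMod.isUnit_iff_coprime]
      exact (Nat.Prime.coprime_iff_not_dvd hp).mpr h
    obtain ⟨u, hu⟩ := h1
    rw [ev, ← hu, DirichletCharacter.unit_norm_eq_one]
    norm_num

/-- the part of the variance at the primes dividing the modulus -/
noncomputable def pmD (S : Sys m) (P : ℕ) (η : ℝ) (x : Ix) : ℝ :=
  ∑ p ∈ Nat.primesBelow (P + 1), if p ∣ x.q then ‖pmc S η p‖ ^ 2 else 0

theorem pm2_diag (S : Sys m) (w : ℝ → ℝ) (P : ℕ) (η : ℝ) (x : Ix) :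
    ∑ q ∈ Nat.primesBelow (P + 1) ×ˢ Nat.primesBelow (P + 1),
      (pmc S η q.1 * starRingEnd ℂ (pmc S η q.2) * hatw w (Real.log q.2 - Real.log q.1)) *
        ev x q.1 * starRingEnd ℂ (ev x q.2) =
    (((∫ t : ℝ, w t) * (VV S P η - pmD S P η x) : ℝ) : ℂ) +
    ∑ q ∈ (Nat.primesBelow (P + 1)).offDiag,
      (pmc S η q.1 * starRingEnd ℂ (pmc S η q.2) * hatw w (Real.log q.2 - Real.log q.1)) *
        ev x q.1 * starRingEnd ℂ (ev x q.2) := by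
  rw [← Finset.diag_union_offDiag, Finset.sum_union (Finset.disjoint_diag_offDiag _)]
  congr 1
  rw [Finset.sum_diag]
  have h0 : hatw w 0 = ((∫ t : ℝ, w t : ℝ) : ℂ) := by
    have h : ∀ t : ℝ, (w t : ℂ) * cexp (t * ((0 : ℝ) : ℂ) * I) = ((w t : ℝ) : ℂ) := by
      intro t
      simp
    rw [hatw]
    simp_rw [h]
    exact integral_ofReal
  have h1 : ∀ p ∈ Nat.primesBelow (P + 1),
      (pmc S η p * starRingEnd ℂ (pmc S η p) * hatw w (Real.log p - Real.log p)) *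
        ev x p * starRingEnd ℂ (ev x p) =
      (((∫ t : ℝ, w t) * (‖pmc S η p‖ ^ 2 - if p ∣ x.q then ‖pmc S η p‖ ^ 2 else 0) : ℝ) : ℂ) := by
    intro p hp
    have hpp := Nat.prime_of_mem_primesBelow hp
    have h2 := pm2_ev x hpp
    rw [sub_self, h0]
    have h3 : pmc S η p * starRingEnd ℂ (pmc S η p) = ((‖pmc S η p‖ ^ 2 : ℝ) : ℂ) := by
      rw [Complex.mul_conj, Complex.normSq_eq_norm_sq]
    have h4 : ev x p * starRingEnd ℂ (ev x p) = ((‖ev x p‖ ^ 2 : ℝ) : ℂ) := by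
      rw [Complex.mul_conj, Complex.normSq_eq_norm_sq]
    calc _ = (pmc S η p * starRingEnd ℂ (pmc S η p)) * ((∫ t : ℝ, w t : ℝ) : ℂ) *
          (ev x p * starRingEnd ℂ (ev x p)) := by ring
      _ = _ := by
          rw [h3, h4, h2]
          split_ifs with h
          · simp
          · push_cast
            ring
  rw [Finset.sum_congr rfl h1, ← Complex.ofReal_sum]
  congr 1
  rw [← Finset.mul_sum, Finset.sum_sub_distrib, pm_VV, pmD]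

theorem pm2_off_inj {P : ℕ} (i j : ↥((Nat.primesBelow (P + 1)).offDiag))
    (h : i.1.1 * j.1.2 = j.1.1 * i.1.2) : i = j := by
  obtain ⟨⟨a, b⟩, hi⟩ := i
  obtain ⟨⟨c, d⟩, hj⟩ := j
  simp only [Finset.mem_offDiag] at hi hj
  simp only at h
  have ha := Nat.prime_of_mem_primesBelow hi.1
  have hb := Nat.prime_of_mem_primesBelow hi.2.1
  have hc := Nat.prime_of_mem_primesBelow hj.1
  have hd := Nat.prime_of_mem_primesBelow hj.2.1
  have h1 : a ∣ c * b := h ▸ Dvd.intro _ rfl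
  have h3 : a = c := by
    rcases (Nat.Prime.dvd_mul ha).mp h1 with h2 | h2
    · exact (Nat.prime_dvd_prime_iff_eq ha hc).mp h2
    · exact absurd ((Nat.prime_dvd_prime_iff_eq ha hb).mp h2) hi.2.2
  subst h3
  have h4 : d = b := Nat.eq_of_mul_eq_mul_left ha.pos h
  subst h4
  rfl

theorem pm2_key (S : Sys m) {w : ℝ → ℝ} (hw : Continuous w) (hc : HasCompactSupport w) (P : ℕ)
    (η : ℝ) (x : Ix) :
    ((∫ t : ℝ, w t * Xs S P η x t ^ 2) - (∫ t : ℝ, w t) * VV S P η / 2) ^ 2 ≤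
      (∫ t : ℝ, w t) ^ 2 * pmD S P η x ^ 2 +
      ‖∑ q ∈ (Nat.primesBelow (P + 1)).offDiag,
      (pmc S η q.1 * starRingEnd ℂ (pmc S η q.2) * hatw w (Real.log q.2 - Real.log q.1)) *
        ev x q.1 * starRingEnd ℂ (ev x q.2)‖ ^ 2 +
      ‖∑ q ∈ pmT P, ((pmk q : ℂ) * (pmc S η q.1 * pmc S η q.2) *
      hatw w (-(Real.log q.1 + Real.log q.2))) * ev x (q.1 * q.2)‖ ^ 2 := by
  have hZ := pm_Z_cont S P η x
  have hwc : Continuous (fun t => (w t : ℂ)) := Complex.continuous_ofReal.comp hw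
  have hcc : HasCompactSupport (fun t => (w t : ℂ)) := hc.comp_left Complex.ofReal_zero
  have iA : Integrable (fun t : ℝ => (w t : ℂ) * pmZ S P η x t ^ 2) :=
    (hwc.mul (hZ.pow 2)).integrable_of_hasCompactSupport hcc.mul_right
  have iB : Integrable (fun t : ℝ => (w t : ℂ) *
      (pmZ S P η x t * starRingEnd ℂ (pmZ S P η x t))) :=
    (hwc.mul (hZ.mul (Complex.continuous_conj.comp hZ))).integrable_of_hasCompactSupport
      hcc.mul_right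
  have eA : ∫ t : ℝ, ((w t : ℂ) * pmZ S P η x t ^ 2).re =
      (∫ t : ℝ, (w t : ℂ) * pmZ S P η x t ^ 2).re := Complex.reCLM.integral_comp_comm iA
  have eB : ∫ t : ℝ, ((w t : ℂ) * (pmZ S P η x t * starRingEnd ℂ (pmZ S P η x t))).re =
      (∫ t : ℝ, (w t : ℂ) * (pmZ S P η x t * starRingEnd ℂ (pmZ S P η x t))).re :=
    Complex.reCLM.integral_comp_comm iB
  have h1 : ∫ t : ℝ, w t * Xs S P η x t ^ 2 =
      ((∫ t : ℝ, (w t : ℂ) * pmZ S P η x t ^ 2).re +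
      (∫ t : ℝ, (w t : ℂ) * (pmZ S P η x t * starRingEnd ℂ (pmZ S P η x t))).re) / 2 := by
    have jA : Integrable (fun t : ℝ => ((w t : ℂ) * pmZ S P η x t ^ 2).re) := iA.re
    have jB : Integrable (fun t : ℝ => ((w t : ℂ) *
      (pmZ S P η x t * starRingEnd ℂ (pmZ S P η x t))).re) := iB.re
    rw [← eA, ← eB, ← integral_add jA jB, ← integral_div]
    congr 1
    ext t
    rw [pm_Z_eq, Complex.re_ofReal_mul, Complex.re_ofReal_mul]
    set z := pmZ S P η x t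
    rw [Complex.mul_conj, Complex.ofReal_re, Complex.normSq_apply, sq z, Complex.mul_re]
    ring
  rw [pm2_B S hw hc, pm2_diag, pm2_A S hw hc, Complex.add_re, Complex.ofReal_re] at h1
  set T1 : ℂ := ∑ q ∈ (Nat.primesBelow (P + 1)).offDiag,
      (pmc S η q.1 * starRingEnd ℂ (pmc S η q.2) * hatw w (Real.log q.2 - Real.log q.1)) *
        ev x q.1 * starRingEnd ℂ (ev x q.2)
  set T2 : ℂ := ∑ q ∈ pmT P, ((pmk q : ℂ) * (pmc S η q.1 * pmc S η q.2) *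
      hatw w (-(Real.log q.1 + Real.log q.2))) * ev x (q.1 * q.2)
  rw [h1]
  have a1 : T1.re ^ 2 ≤ ‖T1‖ ^ 2 := by
    rw [← sq_abs T1.re]
    exact pow_le_pow_left₀ (abs_nonneg _) (Complex.abs_re_le_norm T1) 2
  have a2 : T2.re ^ 2 ≤ ‖T2‖ ^ 2 := by
    rw [← sq_abs T2.re]
    exact pow_le_pow_left₀ (abs_nonneg _) (Complex.abs_re_le_norm T2) 2
  set W := ∫ t : ℝ, w t
  set Dd := pmD S P η x
  set Vv := VV S P η
  have e : (T2.re + (W * (Vv - Dd) + T1.re)) / 2 - W * Vv / 2 =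
      (T2.re + T1.re - W * Dd) / 2 := by ring
  rw [e]
  nlinarith [sq_nonneg (T2.re - T1.re), sq_nonneg (T2.re + W * Dd), sq_nonneg (T1.re + W * Dd)]

theorem pm2_v_le (S : Sys m) {η : ℝ} (hη : 0 ≤ η) {p : ℕ} (hpp : p.Prime) :
    ‖pmc S η p‖ ^ 2 ≤ ‖S.a p‖ ^ 2 / p := by
  have hpp0 : (1 : ℝ) ≤ p := by exact_mod_cast hpp.one_le
  rw [pm_c_sq S η hpp.pos, div_eq_mul_inv, ← Real.rpow_neg_one]
  apply mul_le_mul_of_nonneg_left _ (by positivity)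
  exact Real.rpow_le_rpow_of_exponent_le hpp0 (by linarith)

theorem pm2_hhat {w : ℝ → ℝ} {C₁ : ℝ} (hC1 : 0 ≤ C₁) (hd : ∀ u, ‖hatw w u‖ ≤ C₁ / (1 + u ^ 2))
    (u : ℝ) : ‖hatw w u‖ ^ 2 ≤ C₁ ^ 2 / (1 + u ^ 2) := by
  have h1 : (0 : ℝ) < 1 + u ^ 2 := by positivity
  calc ‖hatw w u‖ ^ 2 ≤ (C₁ / (1 + u ^ 2)) ^ 2 := pow_le_pow_left₀ (norm_nonneg _) (hd u) 2
    _ = C₁ ^ 2 / (1 + u ^ 2) / (1 + u ^ 2) := by field_simp
    _ ≤ C₁ ^ 2 / (1 + u ^ 2) := by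
      apply div_le_self (by positivity)
      nlinarith [sq_nonneg u]

/-- double sum over pairs with a kernel -/
theorem pm2_double (S : Sys m) {η : ℝ} (hη : 0 ≤ η) (P : ℕ) {C₀ C₁ : ℝ}
    (g : ℕ → ℕ → ℝ) (hg0 : ∀ p p', 0 ≤ g p p')
    (y : ℕ → ℝ) (hg : ∀ p p', g p p' ≤ C₁ ^ 2 / (1 + (Real.log p' - y p) ^ 2))
    (hp2 : ∀ y : ℝ, ∑ p ∈ Nat.primesBelow (P + 1), ‖S.a p‖ ^ 2 / p /
      (1 + (Real.log p - y) ^ 2) ≤ C₀) :
    ∑ q ∈ Nat.primesBelow (P + 1) ×ˢ Nat.primesBelow (P + 1),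
      ‖pmc S η q.1‖ ^ 2 * ‖pmc S η q.2‖ ^ 2 * g q.1 q.2 ≤ C₁ ^ 2 * C₀ * VV S P η := by
  rw [Finset.sum_product, pm_VV, Finset.mul_sum]
  apply Finset.sum_le_sum
  intro p hp
  have e3 : ∑ p' ∈ Nat.primesBelow (P + 1), ‖pmc S η p‖ ^ 2 * ‖pmc S η p'‖ ^ 2 * g p p' ≤
      ∑ p' ∈ Nat.primesBelow (P + 1),
        ‖pmc S η p‖ ^ 2 * C₁ ^ 2 * (‖S.a p'‖ ^ 2 / p' / (1 + (Real.log p' - y p) ^ 2)) := by
    apply Finset.sum_le_sum
    intro p' hp'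
    have h1 := pm2_v_le S hη (Nat.prime_of_mem_primesBelow hp')
    calc ‖pmc S η p‖ ^ 2 * ‖pmc S η p'‖ ^ 2 * g p p'
        ≤ ‖pmc S η p‖ ^ 2 * (‖S.a p'‖ ^ 2 / p') * (C₁ ^ 2 / (1 + (Real.log p' - y p) ^ 2)) := by
          apply mul_le_mul _ (hg p p') (hg0 p p') (by positivity)
          exact mul_le_mul_of_nonneg_left h1 (by positivity)
      _ = _ := by ring
  refine e3.trans ?_
  rw [← Finset.mul_sum]
  calc ‖pmc S η p‖ ^ 2 * C₁ ^ 2 * _ ≤ ‖pmc S η p‖ ^ 2 * C₁ ^ 2 * C₀ :=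
        mul_le_mul_of_nonneg_left (hp2 (y p)) (by positivity)
    _ = _ := by ring

theorem pm2_s1 (S : Sys m) {η : ℝ} (hη : 0 ≤ η) (P : ℕ) {C₀ C₁ : ℝ} {w : ℝ → ℝ}
    (hhat : ∀ u, ‖hatw w u‖ ^ 2 ≤ C₁ ^ 2 / (1 + u ^ 2))
    (hp2 : ∀ y : ℝ, ∑ p ∈ Nat.primesBelow (P + 1), ‖S.a p‖ ^ 2 / p /
      (1 + (Real.log p - y) ^ 2) ≤ C₀) :
    ∑ i : ↥((Nat.primesBelow (P + 1)).offDiag), (‖pmc S η i.1.1‖ * ‖pmc S η i.1.2‖ *
      ‖hatw w (Real.log i.1.2 - Real.log i.1.1)‖) ^ 2 ≤ C₁ ^ 2 * C₀ * VV S P η := by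
  have e1 : ∑ i : ↥((Nat.primesBelow (P + 1)).offDiag), (‖pmc S η i.1.1‖ * ‖pmc S η i.1.2‖ *
      ‖hatw w (Real.log i.1.2 - Real.log i.1.1)‖) ^ 2 =
      ∑ q ∈ (Nat.primesBelow (P + 1)).offDiag, ‖pmc S η q.1‖ ^ 2 * ‖pmc S η q.2‖ ^ 2 *
        ‖hatw w (Real.log q.2 - Real.log q.1)‖ ^ 2 := by
    rw [← Finset.sum_coe_sort ((Nat.primesBelow (P + 1)).offDiag)]
    apply Finset.sum_congr rfl
    intro i _
    ring
  rw [e1]
  refine (Finset.sum_le_sum_of_subset_of_nonneg (t := Nat.primesBelow (P + 1) ×ˢ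
    Nat.primesBelow (P + 1)) ?_ ?_).trans (pm2_double S hη P
    (fun p p' => ‖hatw w (Real.log p' - Real.log p)‖ ^ 2) (fun p p' => by positivity)
    (fun p => Real.log p) (fun p p' => hhat _) hp2)
  · intro q hq
    rw [Finset.mem_offDiag] at hq
    exact Finset.mem_product.mpr ⟨hq.1, hq.2.1⟩
  · intro q _ _
    positivity

theorem pm2_s2 (S : Sys m) {η : ℝ} (hη : 0 ≤ η) (P : ℕ) {C₀ C₁ : ℝ} {w : ℝ → ℝ}
    (hhat : ∀ u, ‖hatw w u‖ ^ 2 ≤ C₁ ^ 2 / (1 + u ^ 2))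
    (hp2 : ∀ y : ℝ, ∑ p ∈ Nat.primesBelow (P + 1), ‖S.a p‖ ^ 2 / p /
      (1 + (Real.log p - y) ^ 2) ≤ C₀) :
    ∑ i : ↥(pmT P), ((pmk i.1 : ℝ) * (‖pmc S η i.1.1‖ * ‖pmc S η i.1.2‖) *
      ‖hatw w (-(Real.log i.1.1 + Real.log i.1.2))‖) ^ 2 ≤ 4 * (C₁ ^ 2 * C₀ * VV S P η) := by
  have e1 : ∑ i : ↥(pmT P), ((pmk i.1 : ℝ) * (‖pmc S η i.1.1‖ * ‖pmc S η i.1.2‖) *
      ‖hatw w (-(Real.log i.1.1 + Real.log i.1.2))‖) ^ 2 =
      ∑ q ∈ pmT P, (pmk q : ℝ) ^ 2 * (‖pmc S η q.1‖ ^ 2 * ‖pmc S η q.2‖ ^ 2 *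
        ‖hatw w (-(Real.log q.1 + Real.log q.2))‖ ^ 2) := by
    rw [← Finset.sum_coe_sort (pmT P)]
    apply Finset.sum_congr rfl
    intro i _
    ring
  rw [e1]
  have e2 : ∑ q ∈ pmT P, (pmk q : ℝ) ^ 2 * (‖pmc S η q.1‖ ^ 2 * ‖pmc S η q.2‖ ^ 2 *
        ‖hatw w (-(Real.log q.1 + Real.log q.2))‖ ^ 2) ≤
      4 * ∑ q ∈ pmT P, ‖pmc S η q.1‖ ^ 2 * ‖pmc S η q.2‖ ^ 2 *
        ‖hatw w (-(Real.log q.1 + Real.log q.2))‖ ^ 2 := by
    rw [Finset.mul_sum]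
    apply Finset.sum_le_sum
    intro q _
    have h4 : (pmk q : ℝ) ≤ 2 := by
      unfold pmk
      split_ifs <;> norm_num
    have h5 : 0 ≤ (pmk q : ℝ) := Nat.cast_nonneg _
    have h7 : (pmk q : ℝ) ^ 2 ≤ 4 := by nlinarith
    exact mul_le_mul_of_nonneg_right h7 (by positivity)
  refine e2.trans (mul_le_mul_of_nonneg_left ?_ (by norm_num))
  refine (Finset.sum_le_sum_of_subset_of_nonneg (t := Nat.primesBelow (P + 1) ×ˢ
    Nat.primesBelow (P + 1)) (Finset.filter_subset _ _) ?_).trans (pm2_double S hη P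
    (fun p p' => ‖hatw w (-(Real.log p + Real.log p'))‖ ^ 2) (fun p p' => by positivity)
    (fun _ => 0) (fun p p' => ?_) hp2)
  · intro q _ _
    positivity
  · have hlp : 0 ≤ Real.log p := Real.log_natCast_nonneg p
    have hlp' : 0 ≤ Real.log p' := Real.log_natCast_nonneg p'
    refine (hhat _).trans ?_
    apply div_le_div_of_nonneg_left (by positivity) (by positivity)
    nlinarith [mul_nonneg hlp hlp']

theorem pm2_log {p : ℕ} (hp : 0 < p) : (1 + Real.log p) ^ 2 ≤ 4 * (p : ℝ) := by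
  have hp0 : (0 : ℝ) < p := by exact_mod_cast hp
  have hlp : 0 ≤ Real.log p := Real.log_natCast_nonneg p
  have h4 : Real.log p ≤ 2 * (√p - 1) := by
    have h5 : Real.log p = 2 * Real.log (√p) := by
      rw [Real.log_sqrt hp0.le]
      ring
    rw [h5]
    have h6 := Real.log_le_sub_one_of_pos (Real.sqrt_pos.mpr hp0)
    linarith
  have h7 : 1 + Real.log p ≤ 2 * √p := by linarith
  calc (1 + Real.log p) ^ 2 ≤ (2 * √p) ^ 2 := pow_le_pow_left₀ (by linarith) h7 2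
    _ = 4 * p := by
      rw [mul_pow, Real.sq_sqrt hp0.le]
      norm_num

theorem pm2_s3 (S : Sys m) {η : ℝ} (hη : 0 ≤ η) (P Q : ℕ) {C₀ : ℝ}
    (hp1 : ∑ p ∈ Nat.primesBelow (P + 1), ‖S.a p‖ ^ 2 / ((p : ℝ) * (1 + Real.log p) ^ 2) ≤ C₀) :
    ∑ x ∈ pairs S.N Q, pmD S P η x ≤ 4 * C₀ * Q ^ 2 := by
  unfold pmD
  rw [Finset.sum_comm]
  have e1 : ∀ p ∈ Nat.primesBelow (P + 1),
      ∑ x ∈ pairs S.N Q, (if p ∣ x.q then ‖pmc S η p‖ ^ 2 else 0) ≤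
      4 * Q ^ 2 * (‖S.a p‖ ^ 2 / ((p : ℝ) * (1 + Real.log p) ^ 2)) := by
    intro p hp
    have hpp := Nat.prime_of_mem_primesBelow hp
    have hp0 : (0 : ℝ) < p := by exact_mod_cast hpp.pos
    rw [← Finset.sum_filter, Finset.sum_const, nsmul_eq_mul]
    have h1 := card_pairs_dvd_pr S.N Q p hpp.pos
    have h2 := pm2_v_le S hη hpp
    have hlp : 0 ≤ Real.log p := Real.log_natCast_nonneg p
    have h3 := pm2_log hpp.pos
    calc ((((pairs S.N Q).filter (fun x => p ∣ x.q)).card : ℝ)) * ‖pmc S η p‖ ^ 2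
        ≤ (Q ^ 2 / p) * (‖S.a p‖ ^ 2 / p) :=
          mul_le_mul h1 h2 (by positivity) (by positivity)
      _ = Q ^ 2 * ‖S.a p‖ ^ 2 / p * (1 / p) := by ring
      _ ≤ Q ^ 2 * ‖S.a p‖ ^ 2 / p * (4 / (1 + Real.log p) ^ 2) := by
          apply mul_le_mul_of_nonneg_left _ (by positivity)
          rw [div_le_div_iff₀ hp0 (by positivity)]
          linarith
      _ = 4 * Q ^ 2 * (‖S.a p‖ ^ 2 / ((p : ℝ) * (1 + Real.log p) ^ 2)) := by
          have : (1 + Real.log p) ≠ 0 := by positivity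
          field_simp
  refine (Finset.sum_le_sum e1).trans ?_
  rw [← Finset.mul_sum]
  calc 4 * (Q : ℝ) ^ 2 * _ ≤ 4 * (Q : ℝ) ^ 2 * C₀ :=
        mul_le_mul_of_nonneg_left hp1 (by positivity)
    _ = _ := by ring

theorem pm2_D_nonneg (S : Sys m) (P : ℕ) (η : ℝ) (x : Ix) : 0 ≤ pmD S P η x := by
  unfold pmD
  apply Finset.sum_nonneg
  intro p _
  split_ifs
  · positivity
  · exact le_rfl

theorem pm2_D_le (S : Sys m) (P : ℕ) (η : ℝ) (x : Ix) : pmD S P η x ≤ VV S P η := by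
  rw [pm_VV]
  unfold pmD
  apply Finset.sum_le_sum
  intro p _
  split_ifs
  · exact le_rfl
  · positivity

/-- the off-diagonal sum -/
noncomputable def pmU (S : Sys m) (w : ℝ → ℝ) (P : ℕ) (η : ℝ) (x : Ix) : ℂ :=
  ∑ q ∈ (Nat.primesBelow (P + 1)).offDiag,
    (pmc S η q.1 * starRingEnd ℂ (pmc S η q.2) * hatw w (Real.log q.2 - Real.log q.1)) *
      ev x q.1 * starRingEnd ℂ (ev x q.2)

/-- the sum of the squares -/
noncomputable def pmS (S : Sys m) (w : ℝ → ℝ) (P : ℕ) (η : ℝ) (x : Ix) : ℂ :=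
  ∑ q ∈ pmT P, ((pmk q : ℂ) * (pmc S η q.1 * pmc S η q.2) *
    hatw w (-(Real.log q.1 + Real.log q.2))) * ev x (q.1 * q.2)

theorem pm2_orth1 (S : Sys m) (w : ℝ → ℝ) (P : ℕ) (η : ℝ) : ∃ Q₀ : ℕ, ∀ Q : ℕ, Q₀ ≤ Q →
    ∑ x ∈ pairs S.N Q, ‖pmU S w P η x‖ ^ 2 ≤
      ((∑ i : ↥((Nat.primesBelow (P + 1)).offDiag), (‖pmc S η i.1.1‖ * ‖pmc S η i.1.2‖ *
      ‖hatw w (Real.log i.1.2 - Real.log i.1.1)‖) ^ 2) + 1) * Q ^ 2 := by
  obtain ⟨Q1, hQ1⟩ := orth_pr (ι := ↥((Nat.primesBelow (P + 1)).offDiag)) S.N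
    (fun i => ‖pmc S η i.1.1‖ * ‖pmc S η i.1.2‖ * ‖hatw w (Real.log i.1.2 - Real.log i.1.1)‖)
    (fun i => by positivity) (Summable.of_finite)
    (fun i => i.1.1) (fun i => i.1.2)
    (fun i => (Nat.prime_of_mem_primesBelow (Finset.mem_offDiag.mp i.2).1).pos)
    (fun i => (Nat.prime_of_mem_primesBelow (Finset.mem_offDiag.mp i.2).2.1).pos)
    (fun i j h => pm2_off_inj i j h) (ε := 1) one_pos
  refine ⟨Q1, fun Q hQ => ?_⟩
  have h := hQ1 Q hQ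
    (fun i => pmc S η i.1.1 * starRingEnd ℂ (pmc S η i.1.2) *
      hatw w (Real.log i.1.2 - Real.log i.1.1)) (by
      intro i
      simp only [norm_mul, RCLike.norm_conj]
      exact le_rfl)
  rw [tsum_fintype] at h
  refine le_trans (le_of_eq ?_) h
  apply Finset.sum_congr rfl
  intro x _
  rw [tsum_fintype, pmU, ← Finset.sum_coe_sort ((Nat.primesBelow (P + 1)).offDiag)]

theorem pm2_orth2 (S : Sys m) (w : ℝ → ℝ) (P : ℕ) (η : ℝ) : ∃ Q₀ : ℕ, ∀ Q : ℕ, Q₀ ≤ Q →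
    ∑ x ∈ pairs S.N Q, ‖pmS S w P η x‖ ^ 2 ≤
      ((∑ i : ↥(pmT P), ((pmk i.1 : ℝ) * (‖pmc S η i.1.1‖ * ‖pmc S η i.1.2‖) *
      ‖hatw w (-(Real.log i.1.1 + Real.log i.1.2))‖) ^ 2) + 1) * Q ^ 2 := by
  have hTm : ∀ i : ↥(pmT P), i.1.1.Prime ∧ i.1.2.Prime := by
    intro i
    have hi := i.2
    simp only [pmT, Finset.mem_filter, Finset.mem_product] at hi
    exact ⟨Nat.prime_of_mem_primesBelow hi.1.1, Nat.prime_of_mem_primesBelow hi.1.2⟩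
  obtain ⟨Q1, hQ1⟩ := orth_pr (ι := ↥(pmT P)) S.N
    (fun i => (pmk i.1 : ℝ) * (‖pmc S η i.1.1‖ * ‖pmc S η i.1.2‖) *
      ‖hatw w (-(Real.log i.1.1 + Real.log i.1.2))‖)
    (fun i => by positivity) (Summable.of_finite)
    (fun i => i.1.1 * i.1.2) (fun _ => 1)
    (fun i => Nat.mul_pos (hTm i).1.pos (hTm i).2.pos) (fun _ => one_pos)
    (fun i j h => pm_T_inj i j (by simpa using h)) (ε := 1) one_pos
  refine ⟨Q1, fun Q hQ => ?_⟩
  have h := hQ1 Q hQ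
    (fun i => (pmk i.1 : ℂ) * (pmc S η i.1.1 * pmc S η i.1.2) *
      hatw w (-(Real.log i.1.1 + Real.log i.1.2))) (by
      intro i
      simp only [norm_mul, Complex.norm_natCast]
      exact le_rfl)
  rw [tsum_fintype] at h
  refine le_trans (le_of_eq ?_) h
  apply Finset.sum_congr rfl
  intro x _
  rw [tsum_fintype, pmS, ← Finset.sum_coe_sort (pmT P)]
  congr 2
  apply Finset.sum_congr rfl
  intro i _
  rw [pm_ev_one, map_one, mul_one]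

/-- PM2 -/
theorem pm2_pr (S : Sys m) {w : ℝ → ℝ} (hw : Continuous w) (hc : HasCompactSupport w) {C₁ : ℝ}
    (hd : ∀ u, ‖hatw w u‖ ≤ C₁ / (1 + u ^ 2)) : ∃ C : ℝ, 0 ≤ C ∧ ∀ (P : ℕ) (η : ℝ), 0 ≤ η →
      ∃ Q₀ : ℕ, ∀ Q : ℕ, Q₀ ≤ Q →
        ∑ x ∈ pairs S.N Q, ((∫ t : ℝ, w t * Xs S P η x t ^ 2) - (∫ t : ℝ, w t) * VV S P η / 2) ^ 2 ≤
          C * (1 + VV S P η) * Q ^ 2 := by
  obtain ⟨C₀, hC0, hps⟩ := prime_sums_pr S
  have hC1 : 0 ≤ C₁ := by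
    have := (norm_nonneg _).trans (hd 0)
    simpa using this
  have hhat := pm2_hhat hC1 hd
  set W := ∫ t : ℝ, w t with hW
  refine ⟨4 * W ^ 2 * C₀ + (C₁ ^ 2 * C₀ + 1) + (4 * (C₁ ^ 2 * C₀) + 1), by positivity,
    fun P η hη => ?_⟩
  obtain ⟨hp1, hp2, -⟩ := hps P
  obtain ⟨Q1, hQ1⟩ := pm2_orth1 S w P η
  obtain ⟨Q2, hQ2⟩ := pm2_orth2 S w P η
  refine ⟨max Q1 Q2, fun Q hQ => ?_⟩
  have u1 := hQ1 Q ((le_max_left _ _).trans hQ)
  have u2 := hQ2 Q ((le_max_right _ _).trans hQ)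
  have s1 := pm2_s1 S hη P hhat hp2
  have s2 := pm2_s2 S hη P hhat hp2
  have s3 := pm2_s3 S hη P Q hp1
  have hVn := pm_VV_nonneg S P η
  have k0 : ∀ x ∈ pairs S.N Q, ((∫ t : ℝ, w t * Xs S P η x t ^ 2) - W * VV S P η / 2) ^ 2 ≤
      W ^ 2 * VV S P η * pmD S P η x + ‖pmU S w P η x‖ ^ 2 + ‖pmS S w P η x‖ ^ 2 := by
    intro x _
    have h0 := pm2_key S hw hc P η x
    have h1 : pmD S P η x ^ 2 ≤ VV S P η * pmD S P η x := by
      rw [sq]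
      exact mul_le_mul_of_nonneg_right (pm2_D_le S P η x) (pm2_D_nonneg S P η x)
    have h2 : W ^ 2 * pmD S P η x ^ 2 ≤ W ^ 2 * VV S P η * pmD S P η x := by
      rw [mul_assoc]
      exact mul_le_mul_of_nonneg_left h1 (by positivity)
    refine h0.trans ?_
    exact add_le_add (add_le_add h2 le_rfl) le_rfl
  refine (Finset.sum_le_sum k0).trans ?_
  rw [Finset.sum_add_distrib, Finset.sum_add_distrib, ← Finset.mul_sum]
  have hQn : (0 : ℝ) ≤ (Q : ℝ) ^ 2 := by positivity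
  have k1 : W ^ 2 * VV S P η * ∑ x ∈ pairs S.N Q, pmD S P η x ≤
      W ^ 2 * VV S P η * (4 * C₀ * Q ^ 2) :=
    mul_le_mul_of_nonneg_left s3 (by positivity)
  have k2 := u1.trans (mul_le_mul_of_nonneg_right (add_le_add s1 (le_refl (1 : ℝ))) hQn)
  have k3 := u2.trans (mul_le_mul_of_nonneg_right (add_le_add s2 (le_refl (1 : ℝ))) hQn)
  refine (add_le_add (add_le_add k1 k2) k3).trans ?_
  have k5 : W ^ 2 * VV S P η * (4 * C₀ * (Q : ℝ) ^ 2) + (C₁ ^ 2 * C₀ * VV S P η + 1) * (Q : ℝ) ^ 2 +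
      (4 * (C₁ ^ 2 * C₀ * VV S P η) + 1) * (Q : ℝ) ^ 2 =
      (4 * W ^ 2 * C₀ * VV S P η + (C₁ ^ 2 * C₀ * VV S P η + 1) +
        (4 * (C₁ ^ 2 * C₀) * VV S P η + 1)) * (Q : ℝ) ^ 2 := by ring
  rw [k5]
  apply mul_le_mul_of_nonneg_right _ hQn
  have k6 : 0 ≤ 4 * W ^ 2 * C₀ := by positivity
  have k7 : 0 ≤ C₁ ^ 2 * C₀ := by positivity
  nlinarith

end Pool.Agent.G4
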