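import Pool.Agent.Lib_helper44.G4.Defs
import Pool.Agent.Lib_helper93.G4.ORTH

/-!
# PM4: fourth moment of the sum over primes
-/

namespace Pool.Agent.G4

open Complex MeasureTheory Filter Topology

variable {m : ℕ}

/-- coefficients -/
noncomputable def pmc (S : Sys m) (η : ℝ) (p : ℕ) : ℂ :=
  S.a p * (((p : ℝ) ^ (-(1 / 2 + η)) : ℝ) : ℂ)

/-- `p^{-it}` -/
noncomputable def pme (p : ℕ) (t : ℝ) : ℂ := cexp (t * (-Real.log p : ℝ) * I)

/-- the complex sum over primes -/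
noncomputable def pmZ (S : Sys m) (P : ℕ) (η : ℝ) (x : Ix) (t : ℝ) : ℂ :=
  ∑ p ∈ Nat.primesBelow (P + 1), pmc S η p * ev x p * pme p t

theorem pm_pow {p : ℕ} (hp : 0 < p) (η t : ℝ) : (p : ℂ) ^ (-(1 / 2 + η + t * I : ℂ)) =
    (((p : ℝ) ^ (-(1 / 2 + η)) : ℝ) : ℂ) * pme p t := by
  have hp0 : (0 : ℝ) < p := by exact_mod_cast hp
  have hpc : (p : ℂ) ≠ 0 := by exact_mod_cast hp.ne'
  rw [pme, Complex.cpow_def_of_ne_zero hpc, Real.rpow_def_of_pos hp0, Complex.ofReal_exp,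
    ← Complex.exp_add]
  congr 1
  have h2 : Complex.log (p : ℂ) = ((Real.log p : ℝ) : ℂ) := by
    rw [Complex.ofReal_log hp0.le]
    simp
  rw [h2]
  push_cast
  ring

theorem pm_Z_eq (S : Sys m) (P : ℕ) (η : ℝ) (x : Ix) (t : ℝ) :
    Xs S P η x t = (pmZ S P η x t).re := by
  rw [Xs, pmZ]
  congr 1
  apply Finset.sum_congr rfl
  intro p hp
  have hpp := Nat.prime_of_mem_primesBelow hp
  rw [pm_pow hpp.pos, pmc]
  ring

theorem pm_e_norm (p : ℕ) (t : ℝ) : ‖pme p t‖ = 1 := by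
  rw [pme, ← Complex.ofReal_mul]
  exact Complex.norm_exp_ofReal_mul_I _

theorem pm_e_cont (p : ℕ) : Continuous (pme p) := by
  unfold pme
  fun_prop

theorem pm_Z_cont (S : Sys m) (P : ℕ) (η : ℝ) (x : Ix) : Continuous (pmZ S P η x) := by
  unfold pmZ
  apply continuous_finsetSum
  intro p _
  exact continuous_const.mul (pm_e_cont p)

theorem pm_X_cont (S : Sys m) (P : ℕ) (η : ℝ) (x : Ix) : Continuous (Xs S P η x) := by
  have h : Xs S P η x = fun t => (pmZ S P η x t).re := by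
    ext t
    exact pm_Z_eq S P η x t
  rw [h]
  exact Complex.continuous_re.comp (pm_Z_cont S P η x)

theorem pm_c_sq (S : Sys m) (η : ℝ) {p : ℕ} (hp : 0 < p) :
    ‖pmc S η p‖ ^ 2 = ‖S.a p‖ ^ 2 * (p : ℝ) ^ (-1 - 2 * η) := by
  have hp0 : (0 : ℝ) < p := by exact_mod_cast hp
  rw [pmc, norm_mul, mul_pow, Complex.norm_real, Real.norm_eq_abs, sq_abs]
  congr 1
  rw [← Real.rpow_natCast, ← Real.rpow_mul hp0.le]
  congr 1
  push_cast
  ring

theorem pm_VV (S : Sys m) (P : ℕ) (η : ℝ) :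
    VV S P η = ∑ p ∈ Nat.primesBelow (P + 1), ‖pmc S η p‖ ^ 2 := by
  rw [VV]
  apply Finset.sum_congr rfl
  intro p hp
  rw [pm_c_sq S η (Nat.prime_of_mem_primesBelow hp).pos]

theorem pm_VV_nonneg (S : Sys m) (P : ℕ) (η : ℝ) : 0 ≤ VV S P η := by
  rw [pm_VV]
  exact Finset.sum_nonneg fun p _ => by positivity

/-- ordered pairs -/
def pmT (P : ℕ) : Finset (ℕ × ℕ) :=
  (Nat.primesBelow (P + 1) ×ˢ Nat.primesBelow (P + 1)).filter (fun q => q.1 ≤ q.2)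

/-- multiplicity -/
def pmk (q : ℕ × ℕ) : ℕ := if q.1 = q.2 then 1 else 2

theorem pm_sq_sum (s : Finset ℕ) (f : ℕ → ℂ) : (∑ p ∈ s, f p) ^ 2 =
    ∑ q ∈ (s ×ˢ s).filter (fun q => q.1 ≤ q.2), (pmk q : ℂ) * (f q.1 * f q.2) := by
  rw [sq, Finset.sum_mul_sum, ← Finset.sum_product', ← Finset.sum_filter_add_sum_filter_not
    (s ×ˢ s) (fun q => q.1 ≤ q.2)]
  have h1 : ∑ q ∈ (s ×ˢ s).filter (fun q => ¬ q.1 ≤ q.2), f q.1 * f q.2 =
      ∑ q ∈ (s ×ˢ s).filter (fun q => q.1 ≤ q.2), if q.1 = q.2 then 0 else f q.1 * f q.2 := by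
    rw [← Finset.sum_filter_ne_zero, ← Finset.sum_filter_ne_zero (s := (s ×ˢ s).filter (fun q => q.1 ≤ q.2))]
    apply Finset.sum_bij (fun q _ => (q.2, q.1))
    · rintro ⟨a, b⟩ h
      simp only [Finset.mem_filter, Finset.mem_product] at h ⊢
      obtain ⟨⟨⟨h1, h2⟩, h3⟩, h4⟩ := h
      refine ⟨⟨⟨h2, h1⟩, by omega⟩, ?_⟩
      rw [if_neg (by omega), mul_comm]
      exact h4
    · rintro ⟨a, b⟩ _ ⟨a', b'⟩ _ h
      simp only [Prod.mk.injEq] at h ⊢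
      exact ⟨h.2, h.1⟩
    · rintro ⟨a, b⟩ h
      simp only [Finset.mem_filter, Finset.mem_product] at h
      obtain ⟨⟨⟨h1, h2⟩, h3⟩, h4⟩ := h
      have hab : a ≠ b := by
        intro hab
        rw [if_pos hab] at h4
        exact h4 rfl
      rw [if_neg hab] at h4
      refine ⟨(b, a), ?_, rfl⟩
      simp only [Finset.mem_filter, Finset.mem_product]
      refine ⟨⟨⟨h2, h1⟩, by omega⟩, ?_⟩
      rw [mul_comm]
      exact h4
    · rintro ⟨a, b⟩ h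
      simp only [Finset.mem_filter, Finset.mem_product] at h
      obtain ⟨⟨⟨h1, h2⟩, h3⟩, h4⟩ := h
      simp only
      rw [if_neg (by omega), mul_comm]
  rw [h1, ← Finset.sum_add_distrib]
  apply Finset.sum_congr rfl
  intro q _
  unfold pmk
  split_ifs with h
  · simp
  · push_cast
    ring

theorem pm_Z_sq (S : Sys m) (P : ℕ) (η : ℝ) (x : Ix) (t : ℝ) : pmZ S P η x t ^ 2 =
    ∑ q ∈ pmT P, (pmk q : ℂ) * (pmc S η q.1 * pmc S η q.2) * (pme q.1 t * pme q.2 t) *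
      ev x (q.1 * q.2) := by
  rw [pmZ, pm_sq_sum, pmT]
  apply Finset.sum_congr rfl
  intro q _
  have h : ev x (q.1 * q.2) = ev x q.1 * ev x q.2 := by
    rw [ev, ev, ev, Nat.cast_mul, map_mul]
  rw [h]
  ring

theorem pm_T_inj {P : ℕ} (i j : ↥(pmT P)) (h : i.1.1 * i.1.2 = j.1.1 * j.1.2) : i = j := by
  obtain ⟨⟨a, b⟩, hi⟩ := i
  obtain ⟨⟨c, d⟩, hj⟩ := j
  simp only [pmT, Finset.mem_filter, Finset.mem_product] at hi hj
  simp only at h
  have ha := Nat.prime_of_mem_primesBelow hi.1.1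
  have hb := Nat.prime_of_mem_primesBelow hi.1.2
  have hc := Nat.prime_of_mem_primesBelow hj.1.1
  have hd := Nat.prime_of_mem_primesBelow hj.1.2
  have h1 : a ∣ c * d := h ▸ Dvd.intro _ rfl
  have key : a = c ∧ b = d := by
    rcases (Nat.Prime.dvd_mul ha).mp h1 with h2 | h2
    · have h3 : a = c := (Nat.prime_dvd_prime_iff_eq ha hc).mp h2
      subst h3
      exact ⟨rfl, Nat.eq_of_mul_eq_mul_left ha.pos h⟩
    · have h3 : a = d := (Nat.prime_dvd_prime_iff_eq ha hd).mp h2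
      subst h3
      have h4 : b = c := Nat.eq_of_mul_eq_mul_left ha.pos (by linarith)
      subst h4
      have h5 := hi.2
      have h6 := hj.2
      have : a = b := by omega
      exact ⟨this, this.symm⟩
  obtain ⟨h1, h2⟩ := key
  subst h1
  subst h2
  rfl

theorem pm_ev_one (x : Ix) : ev x 1 = 1 := by
  rw [ev, Nat.cast_one, map_one]

theorem pm_T_sum (P : ℕ) (v : ℕ → ℝ) (hv : ∀ p, 0 ≤ v p) :
    ∑ q ∈ pmT P, (pmk q : ℝ) ^ 2 * (v q.1 * v q.2) ≤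
      2 * (∑ p ∈ Nat.primesBelow (P + 1), v p) ^ 2 := by
  have h1 := pm_sq_sum (Nat.primesBelow (P + 1)) (fun p => (v p : ℂ))
  have h2 : (∑ p ∈ Nat.primesBelow (P + 1), v p) ^ 2 =
      ∑ q ∈ pmT P, (pmk q : ℝ) * (v q.1 * v q.2) := by
    have h3 : (((∑ p ∈ Nat.primesBelow (P + 1), v p) ^ 2 : ℝ) : ℂ) =
        ((∑ q ∈ pmT P, (pmk q : ℝ) * (v q.1 * v q.2) : ℝ) : ℂ) := by
      push_cast
      exact h1
    exact_mod_cast h3
  rw [h2, Finset.mul_sum]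
  apply Finset.sum_le_sum
  intro q _
  have h4 : (pmk q : ℝ) ≤ 2 := by
    unfold pmk
    split_ifs <;> norm_num
  have h5 : 0 ≤ (pmk q : ℝ) := Nat.cast_nonneg _
  have h6 : 0 ≤ v q.1 * v q.2 := mul_nonneg (hv _) (hv _)
  have h7 : (pmk q : ℝ) ^ 2 ≤ 2 * pmk q := by nlinarith
  calc (pmk q : ℝ) ^ 2 * (v q.1 * v q.2) ≤ 2 * pmk q * (v q.1 * v q.2) :=
        mul_le_mul_of_nonneg_right h7 h6
    _ = _ := by ring

/-- PM4 -/
theorem pm4_pr (S : Sys m) {w : ℝ → ℝ} (hw : Continuous w) (hc : HasCompactSupport w)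
    (h0 : ∀ t, 0 ≤ w t) : ∃ C : ℝ, 0 ≤ C ∧ ∀ (P : ℕ) (η : ℝ), 0 ≤ η →
      ∃ Q₀ : ℕ, ∀ Q : ℕ, Q₀ ≤ Q →
        ∑ x ∈ pairs S.N Q, ∫ t : ℝ, w t * Xs S P η x t ^ 4 ≤ C * (1 + VV S P η) ^ 2 * Q ^ 2 := by
  have hw0 : 0 ≤ ∫ t : ℝ, w t := integral_nonneg h0
  refine ⟨2 * ∫ t : ℝ, w t, by positivity, fun P η _ => ?_⟩
  set b : ↥(pmT P) → ℝ := fun i => (pmk i.1 : ℝ) * (‖pmc S η i.1.1‖ * ‖pmc S η i.1.2‖) with hb
  have hb0 : ∀ i, 0 ≤ b i := fun i => by rw [hb]; positivity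
  have hpos : ∀ i : ↥(pmT P), 0 < i.1.1 * i.1.2 := by
    intro i
    have hi := i.2
    simp only [pmT, Finset.mem_filter, Finset.mem_product] at hi
    exact Nat.mul_pos (Nat.prime_of_mem_primesBelow hi.1.1).pos
      (Nat.prime_of_mem_primesBelow hi.1.2).pos
  obtain ⟨Q₀, hQ⟩ := orth_pr (ι := ↥(pmT P)) S.N b hb0 (Summable.of_finite)
    (fun i => i.1.1 * i.1.2) (fun _ => 1) hpos (fun _ => one_pos)
    (fun i j h => pm_T_inj i j (by simpa using h)) (ε := 1) one_pos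
  refine ⟨Q₀, fun Q hQQ => ?_⟩
  have hV := pm_VV_nonneg S P η
  have hbs : ∑' i, b i ^ 2 ≤ 2 * VV S P η ^ 2 := by
    rw [tsum_fintype, pm_VV]
    have h1 := pm_T_sum P (fun p => ‖pmc S η p‖ ^ 2) (fun p => by positivity)
    refine le_trans (le_of_eq ?_) h1
    rw [← Finset.sum_coe_sort (pmT P)]
    apply Finset.sum_congr rfl
    intro i _
    rw [hb]
    ring
  -- for each t
  have ht : ∀ t : ℝ, ∑ x ∈ pairs S.N Q, Xs S P η x t ^ 4 ≤ 2 * (1 + VV S P η) ^ 2 * Q ^ 2 := by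
    intro t
    have h1 := hQ Q hQQ (fun i => (pmk i.1 : ℂ) * (pmc S η i.1.1 * pmc S η i.1.2) *
      (pme i.1.1 t * pme i.1.2 t)) (by
        intro i
        simp only [norm_mul, pm_e_norm, mul_one, Complex.norm_natCast, hb]
        exact le_rfl)
    have h2 : ∀ x ∈ pairs S.N Q, Xs S P η x t ^ 4 ≤ ‖∑' i : ↥(pmT P), (pmk i.1 : ℂ) *
        (pmc S η i.1.1 * pmc S η i.1.2) * (pme i.1.1 t * pme i.1.2 t) * ev x (i.1.1 * i.1.2) *
        starRingEnd ℂ (ev x 1)‖ ^ 2 := by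
      intro x _
      rw [tsum_fintype]
      have h3 : ∑ i : ↥(pmT P), (pmk i.1 : ℂ) *
          (pmc S η i.1.1 * pmc S η i.1.2) * (pme i.1.1 t * pme i.1.2 t) * ev x (i.1.1 * i.1.2) *
          starRingEnd ℂ (ev x 1) = pmZ S P η x t ^ 2 := by
        rw [pm_Z_sq, ← Finset.sum_coe_sort (pmT P)]
        apply Finset.sum_congr rfl
        intro i _
        rw [pm_ev_one, map_one, mul_one]
      rw [h3, pm_Z_eq, norm_pow, ← pow_mul]
      have h4 := Complex.abs_re_le_norm (pmZ S P η x t)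
      calc (pmZ S P η x t).re ^ 4 = |(pmZ S P η x t).re| ^ 4 := by
            rw [← abs_pow, abs_of_nonneg (by positivity)]
        _ ≤ ‖pmZ S P η x t‖ ^ 4 := pow_le_pow_left₀ (abs_nonneg _) h4 4
        _ = ‖pmZ S P η x t‖ ^ (2 * 2) := by norm_num
    refine (Finset.sum_le_sum h2).trans (h1.trans ?_)
    apply mul_le_mul_of_nonneg_right _ (by positivity)
    nlinarith
  have hint : ∀ x, Integrable (fun t : ℝ => w t * Xs S P η x t ^ 4) := by
    intro x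
    exact (hw.mul ((pm_X_cont S P η x).pow 4)).integrable_of_hasCompactSupport (hc.mul_right)
  rw [← integral_finsetSum _ (fun x _ => hint x)]
  have h5 : ∫ t : ℝ, ∑ x ∈ pairs S.N Q, w t * Xs S P η x t ^ 4 ≤
      ∫ t : ℝ, w t * (2 * (1 + VV S P η) ^ 2 * Q ^ 2) := by
    apply integral_mono (integrable_finsetSum _ (fun x _ => hint x))
      ((hw.integrable_of_hasCompactSupport hc).mul_const _)
    intro t
    simp only
    rw [← Finset.mul_sum]
    exact mul_le_mul_of_nonneg_left (ht t) (h0 t)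
  refine h5.trans (le_of_eq ?_)
  rw [integral_mul_const]
  ring

end Pool.Agent.G4
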