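import Pool.Agent.Lib_helper44.G4.Defs

/-!
# PDET: a random variable with bounded kurtosis and small mean is often large
-/

namespace Pool.Agent.G4

open Complex MeasureTheory Filter Topology

theorem pdet_cs {w : ℝ → ℝ} (hw : Continuous w) (hc : HasCompactSupport w) {g : ℝ → ℝ}
    (hg : Continuous g) : Integrable (fun t => w t * g t) :=
  (hw.mul hg).integrable_of_hasCompactSupport (hc.mul_right)

/-- PDET -/
theorem pdet_pr {w X : ℝ → ℝ} (hw : Continuous w) (hX : Continuous X) (hc : HasCompactSupport w)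
    (h0 : ∀ t, 0 ≤ w t) {M₁ V K B : ℝ} (hV : 0 < V) (hK : 0 < K) (hB : 0 ≤ B)
    (h1 : |∫ t : ℝ, w t * X t| ≤ M₁) (h2 : V ≤ ∫ t : ℝ, w t * X t ^ 2)
    (h4 : ∫ t : ℝ, w t * X t ^ 4 ≤ K * V ^ 2) (h5 : M₁ ≤ √(V / K) / 4) (h6 : B * (∫ t : ℝ, w t) ≤ √(V / K) / 8) :
    1 / (8 * K) ≤ ∫ t in {t | B ≤ X t}, w t := by
  have i0 : Integrable w := hw.integrable_of_hasCompactSupport hc
  have i1 : Integrable (fun t => w t * X t) := pdet_cs hw hc hX
  have ia : Integrable (fun t => w t * |X t|) := pdet_cs hw hc hX.abs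
  have i2 : Integrable (fun t => w t * X t ^ 2) := pdet_cs hw hc (hX.pow 2)
  have i4 : Integrable (fun t => w t * X t ^ 4) := pdet_cs hw hc (hX.pow 4)
  set s : ℝ := √(V / K) with hs
  set l : ℝ := √(V * K) with hl
  have hl0 : 0 < l := Real.sqrt_pos.mpr (by positivity)
  have hs0 : 0 < s := Real.sqrt_pos.mpr (by positivity)
  have hl2 : l ^ 2 = V * K := Real.sq_sqrt (by positivity)
  have hs2 : s ^ 2 = V / K := Real.sq_sqrt (by positivity)
  have hls : l * s = V := by
    rw [hl, hs, ← Real.sqrt_mul (by positivity)]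
    rw [show V * K * (V / K) = V ^ 2 by field_simp]
    exact Real.sqrt_sq hV.le
  have hsK : s * K = l := by
    apply mul_left_cancel₀ hl0.ne'
    rw [← mul_assoc, hls, ← sq, hl2]
  -- first absolute moment
  have e1 : 3 * l ^ 2 * ∫ t : ℝ, w t * X t ^ 2 ≤
      2 * l ^ 3 * (∫ t : ℝ, w t * |X t|) + ∫ t : ℝ, w t * X t ^ 4 := by
    rw [← integral_const_mul, ← integral_const_mul, ← integral_add (ia.const_mul _) i4]
    apply integral_mono (i2.const_mul _) ((ia.const_mul _).add i4)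
    intro t
    simp only [Pi.add_apply]
    have h7 : 0 ≤ |X t| := abs_nonneg _
    have h8 : X t ^ 2 = |X t| ^ 2 := (sq_abs _).symm
    have h9 : X t ^ 4 = |X t| ^ 4 := by
      rw [show X t ^ 4 = (X t ^ 2) ^ 2 by ring, h8]; ring
    rw [h8, h9]
    have h10 : 0 ≤ |X t| * (|X t| - l) ^ 2 * (|X t| + 2 * l) := by positivity
    have h11 : 3 * l ^ 2 * |X t| ^ 2 ≤ 2 * l ^ 3 * |X t| + |X t| ^ 4 := by nlinarith
    calc 3 * l ^ 2 * (w t * |X t| ^ 2) = w t * (3 * l ^ 2 * |X t| ^ 2) := by ring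
      _ ≤ w t * (2 * l ^ 3 * |X t| + |X t| ^ 4) := mul_le_mul_of_nonneg_left h11 (h0 t)
      _ = 2 * l ^ 3 * (w t * |X t|) + w t * |X t| ^ 4 := by ring
  have e2 : s ≤ ∫ t : ℝ, w t * |X t| := by
    have h7 : 3 * l ^ 2 * V ≤ 2 * l ^ 3 * (∫ t : ℝ, w t * |X t|) + K * V ^ 2 := by
      have := mul_le_mul_of_nonneg_left h2 (by positivity : 0 ≤ 3 * l ^ 2)
      linarith
    have h8 : K * V ^ 2 = l ^ 2 * V := by rw [hl2]; ring
    have h9 : 2 * l ^ 2 * V ≤ 2 * l ^ 3 * (∫ t : ℝ, w t * |X t|) := by nlinarith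
    have h10 : 2 * l ^ 2 * V = 2 * l ^ 3 * s := by rw [← hls]; ring
    rw [h10] at h9
    exact le_of_mul_le_mul_left h9 (by positivity)
  -- the set
  have hE : MeasurableSet {t | B ≤ X t} := (isClosed_le continuous_const hX).measurableSet
  have e3 : s / 4 ≤ ∫ t in {t | B ≤ X t}, w t * X t := by
    rw [← integral_indicator hE]
    have ip : Integrable (fun t => (w t * |X t| + w t * X t) / 2) := (ia.add i1).div_const 2
    have ib : Integrable (fun t => B * w t) := i0.const_mul B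
    have h7 : ∫ t : ℝ, ((w t * |X t| + w t * X t) / 2 - B * w t) ≤
        ∫ t : ℝ, {t | B ≤ X t}.indicator (fun t => w t * X t) t := by
      apply integral_mono (ip.sub ib) (i1.indicator hE)
      intro t
      by_cases ht : B ≤ X t
      · rw [Set.indicator_of_mem (by exact ht)]
        have h8 : |X t| = X t := abs_of_nonneg (hB.trans ht)
        simp only [Pi.sub_apply, Pi.add_apply, h8]
        nlinarith [mul_nonneg hB (h0 t)]
      · rw [Set.indicator_of_notMem (by exact ht)]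
        push Not at ht
        simp only [Pi.sub_apply, Pi.add_apply]
        rcases le_total 0 (X t) with h8 | h8
        · rw [abs_of_nonneg h8]
          nlinarith [mul_le_mul_of_nonneg_left ht.le (h0 t)]
        · rw [abs_of_nonpos h8]
          nlinarith [mul_nonneg hB (h0 t)]
    have h8 : ∫ t : ℝ, ((w t * |X t| + w t * X t) / 2 - B * w t) =
        ((∫ t : ℝ, w t * |X t|) + ∫ t : ℝ, w t * X t) / 2 - B * ∫ t : ℝ, w t := by
      rw [integral_sub ip ib, integral_const_mul, integral_div, integral_add ia i1]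
    rw [h8] at h7
    have h9 := (abs_le.mp h1).1
    linarith
  -- weight of the set
  have e4 : 4 * (3 / 2 * l) ^ 3 * (∫ t in {t | B ≤ X t}, w t * X t) ≤
      3 * (3 / 2 * l) ^ 4 * (∫ t in {t | B ≤ X t}, w t) + ∫ t : ℝ, w t * X t ^ 4 := by
    have h7 : ∫ t in {t | B ≤ X t}, w t * X t ^ 4 ≤ ∫ t : ℝ, w t * X t ^ 4 := by
      apply setIntegral_le_integral i4
      filter_upwards with t
      exact mul_nonneg (h0 t) (by positivity)
    refine le_trans ?_ (add_le_add_right h7 _)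
    rw [← integral_const_mul, ← integral_const_mul, ← integral_add
      (i0.integrableOn.const_mul _) i4.integrableOn]
    apply setIntegral_mono_on (i1.integrableOn.const_mul _)
      ((i0.integrableOn.const_mul _).add i4.integrableOn) hE
    intro t ht
    set μ : ℝ := 3 / 2 * l with hμ
    have hμ0 : 0 < μ := by positivity
    have h8 : 4 * μ ^ 3 * X t ≤ 3 * μ ^ 4 + X t ^ 4 := by
      nlinarith [mul_nonneg (sq_nonneg (X t - μ)) (by nlinarith [sq_nonneg (X t + μ), sq_nonneg (X t), sq_nonneg μ] :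
        0 ≤ X t ^ 2 + 2 * μ * X t + 3 * μ ^ 2)]
    calc 4 * μ ^ 3 * (w t * X t) = w t * (4 * μ ^ 3 * X t) := by ring
      _ ≤ w t * (3 * μ ^ 4 + X t ^ 4) := mul_le_mul_of_nonneg_left h8 (h0 t)
      _ = 3 * μ ^ 4 * w t + w t * X t ^ 4 := by ring
  set W : ℝ := ∫ t in {t | B ≤ X t}, w t with hW
  have h7 : K * V ^ 2 = l ^ 3 * s := by
    rw [← hls, ← hsK]
    ring
  have h8 : 4 * (3 / 2 * l) ^ 3 * (s / 4) ≤ 3 * (3 / 2 * l) ^ 4 * W + l ^ 3 * s := by
    have := mul_le_mul_of_nonneg_left e3 (by positivity : 0 ≤ 4 * (3 / 2 * l) ^ 3)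
    linarith
  have h9 : l ^ 3 * (19 / 8 * s) ≤ l ^ 3 * (243 / 16 * l * W) := by nlinarith
  have h10 : 19 / 8 * s ≤ 243 / 16 * l * W := le_of_mul_le_mul_left h9 (by positivity)
  rw [← hsK] at h10
  have h11 : s * (19 / 8) ≤ s * (243 / 16 * K * W) := by nlinarith
  have h12 : 19 / 8 ≤ 243 / 16 * K * W := le_of_mul_le_mul_left h11 hs0
  rw [div_le_iff₀ (by positivity)]
  nlinarith

end Pool.Agent.G4
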